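import Pool.Agent.H5St.Reach

/-!
# The number of the points which are reached when `k B` is dense on boxes
-/

set_option autoImplicit false

open Finset Classical

namespace Pool.Agent.H5St

open Pool.Agent.PlunTwo Pool.Agent.PlunRow

/-- The hypothesis on `k B`: it is dense on boxes, the row `0` has the density `c δ`, and the
staircases with at most `q + 1` points have the density `h δ`. -/
structure Boxy (q : ℕ) (K : Set (ℕ × ℕ)) (δ c h : ℝ) : Prop where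
  zero : ∀ l ≤ q + 1, c * δ * (l : ℝ) ≤ row 0 K l
  both : ∀ l ≤ q + 1, δ * (2 * (l : ℝ)) ≤ (row 0 K l : ℝ) + row 1 K l
  stair : ∀ x y : ℕ, y ≤ x → x + y ≤ q + 1 →
    h * δ * ((x : ℝ) + y) ≤ (row 0 K x : ℝ) + row 1 K y

/-- The staircases have always at least the density `2 c / (2 + c)`. -/
theorem stair_always {q : ℕ} {K : Set (ℕ × ℕ)} {δ c : ℝ} (hc : 0 ≤ c)
    (h0 : ∀ l ≤ q + 1, c * δ * (l : ℝ) ≤ row 0 K l)
    (h1 : ∀ l ≤ q + 1, δ * (2 * (l : ℝ)) ≤ (row 0 K l : ℝ) + row 1 K l) (x y : ℕ) (hyx : y ≤ x)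
    (hxy : x + y ≤ q + 1) :
    2 * c / (2 + c) * δ * ((x : ℝ) + y) ≤ (row 0 K x : ℝ) + row 1 K y := by
  have hc2 : 0 < 2 + c := by linarith
  have e1 := h0 x (by omega)
  have e2 := h1 y (by omega)
  have e3 : (row 0 K y : ℝ) ≤ row 0 K x := by exact_mod_cast row_mono 0 _ hyx
  have s1 : c * δ * (x : ℝ) ≤ (row 0 K x : ℝ) + row 1 K y :=
    e1.trans (le_add_of_nonneg_right (Nat.cast_nonneg _))
  have s2 : δ * (2 * (y : ℝ)) ≤ (row 0 K x : ℝ) + row 1 K y := by linarith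
  have e : 2 * c / (2 + c) * δ * ((x : ℝ) + y) =
      (2 * (c * δ * (x : ℝ)) + c * (δ * (2 * (y : ℝ)))) / (2 + c) := by
    field_simp
  rw [e, div_le_iff₀ hc2]
  have e2 := mul_le_mul_of_nonneg_left s2 hc
  linarith

/-- The three lower bounds for the weighted number of the reached points. -/
theorem reach2 {q k : ℕ} {B : Set (ℕ × ℕ)} {Z : Finset (ℕ × ℕ)} {z0 z1 : ℕ} {δ θ s c h : ℝ}
    (hδ : 0 ≤ δ) (hθ0 : 0 ≤ θ) (hθ1 : θ ≤ 1) (hs : 0 ≤ s) (hc : 1 ≤ c)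
    (hK : Boxy q (kfold B k) δ c h) (hz0 : z0 ≤ q + 1) (hz1 : z1 ≤ q + 1)
    (h0 : z0 < q + 1 → (z0, 0) ∈ Z) (h1 : z1 < q + 1 → (z1, 1) ∈ Z) :
    (δ * ((θ + s) * (((q + 1 : ℕ) : ℝ) - z0) + (1 + s) * (((q + 1 : ℕ) : ℝ) - z1)) ≤
      (θ + s) * (im q k B 0 Z).card + (1 + s) * (im q k B 1 Z).card) ∧
    (z0 ≤ z1 → z1 - z0 ≤ q + 1 - z1 →
      δ * ((2 * (θ + s) + (1 - θ) * h) * (((q + 1 : ℕ) : ℝ) - z0)) ≤
      (θ + s) * (im q k B 0 Z).card + (1 + s) * (im q k B 1 Z).card) ∧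
    (z0 ≤ z1 → z1 - z0 ≤ q + 1 - z1 →
      δ * (((θ + s) * c + (1 + s) * h) * (((q + 1 : ℕ) : ℝ) - z0)) ≤
      (θ + s) * (im q k B 0 Z).card + (1 + s) * (im q k B 1 Z).card) ∧
    (z0 ≤ z1 → q + 1 - z1 ≤ z1 - z0 →
      δ * (2 * (θ + s) * (((q + 1 : ℕ) : ℝ) - z0) + 2 * (1 - θ) * (((q + 1 : ℕ) : ℝ) - z1)) ≤
      (θ + s) * (im q k B 0 Z).card + (1 + s) * (im q k B 1 Z).card) := by
  have i0 : (row 0 (kfold B k) (q + 1 - z0) : ℝ) ≤ (im q k B 0 Z).card := by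
    exact_mod_cast im_zero_ge h0
  have i1 : (row 0 (kfold B k) (q + 1 - z1) : ℝ) ≤ (im q k B 1 Z).card := by
    exact_mod_cast im_one_ge h1
  -- the points of the row `1` which are reached from the first point of the row `0`
  have i3 : (row 1 (kfold B k) (q + 1 - z0) : ℝ) ≤ (im q k B 1 Z).card := by
    have h := im_one_ge' (q := q) (k := k) (B := B) (Z := Z) (z0 := z0) (z1 := q + 1) hz0 le_rfl h0
      (fun h => absurd h (lt_irrefl _))
    have h' : row 1 (kfold B k) (q + 1 - z0) ≤ (im q k B 1 Z).card :=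
      (Nat.le_add_right _ _).trans h
    exact_mod_cast h'
  have r0 := hK.zero (q + 1 - z0) (by omega)
  have r1 := hK.zero (q + 1 - z1) (by omega)
  have b0 := hK.both (q + 1 - z0) (by omega)
  have b1 := hK.both (q + 1 - z1) (by omega)
  rw [Nat.cast_sub hz0] at r0 b0
  rw [Nat.cast_sub hz1] at r1 b1
  have X0 : (0 : ℝ) ≤ ((q + 1 : ℕ) : ℝ) - z0 := by
    have : (z0 : ℝ) ≤ ((q + 1 : ℕ) : ℝ) := by exact_mod_cast hz0
    linarith
  have Y0 : (0 : ℝ) ≤ ((q + 1 : ℕ) : ℝ) - z1 := by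
    have : (z1 : ℝ) ≤ ((q + 1 : ℕ) : ℝ) := by exact_mod_cast hz1
    linarith
  have r0' : δ * (((q + 1 : ℕ) : ℝ) - z0) ≤ row 0 (kfold B k) (q + 1 - z0) := by
    refine le_trans ?_ r0
    have := mul_le_mul_of_nonneg_right hc (mul_nonneg hδ X0)
    linarith
  have r1' : δ * (((q + 1 : ℕ) : ℝ) - z1) ≤ row 0 (kfold B k) (q + 1 - z1) := by
    refine le_trans ?_ r1
    have := mul_le_mul_of_nonneg_right hc (mul_nonneg hδ Y0)
    linarith
  have p1 : 0 ≤ θ + s := by linarith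
  have p2 : 0 ≤ 1 + s := by linarith
  have p3 : 0 ≤ 1 - θ := by linarith
  -- both rows together
  have tot : δ * (2 * (((q + 1 : ℕ) : ℝ) - z0)) ≤
      ((im q k B 0 Z).card : ℝ) + (im q k B 1 Z).card := by linarith
  have etot := mul_le_mul_of_nonneg_left tot p1
  have hmid : z0 ≤ z1 → z1 - z0 ≤ q + 1 - z1 →
      δ * (h * (((q + 1 : ℕ) : ℝ) - z0)) ≤ (im q k B 1 Z).card := by
    intro hz h'
    have i2 : (row 1 (kfold B k) (z1 - z0) : ℝ) + row 0 (kfold B k) (q + 1 - z1) ≤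
        (im q k B 1 Z).card := by exact_mod_cast im_one_ge' hz hz1 h0 h1
    have b2 := hK.stair (q + 1 - z1) (z1 - z0) h' (by omega)
    rw [Nat.cast_sub hz, Nat.cast_sub hz1] at b2
    linarith
  refine ⟨?_, fun hz h2 => ?_, fun hz h2 => ?_, fun hz h2 => ?_⟩
  · have e1 := mul_le_mul_of_nonneg_left (r0'.trans i0) p1
    have e2 := mul_le_mul_of_nonneg_left (r1'.trans i1) p2
    linarith
  · have e3 := mul_le_mul_of_nonneg_left (hmid hz h2) p3
    linarith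
  · have e3 := mul_le_mul_of_nonneg_left (hmid hz h2) p2
    have e4 := mul_le_mul_of_nonneg_left (r0.trans i0) p1
    linarith
  · have i2 : (row 1 (kfold B k) (z1 - z0) : ℝ) + row 0 (kfold B k) (q + 1 - z1) ≤
        (im q k B 1 Z).card := by exact_mod_cast im_one_ge' hz hz1 h0 h1
    have k3 : (row 1 (kfold B k) (q + 1 - z1) : ℝ) ≤ row 1 (kfold B k) (z1 - z0) := by
      exact_mod_cast row_mono 1 _ h2
    have e3 := mul_le_mul_of_nonneg_left (show δ * (2 * (((q + 1 : ℕ) : ℝ) - z1)) ≤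
      ((im q k B 1 Z).card : ℝ) by linarith) p3
    linarith

end Pool.Agent.H5St
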