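import Pool.Agent.PlunTwo.Defs

/-!
# Two more conditions on subsets of the two rows
-/

set_option autoImplicit false

namespace Pool.Agent.H65R

open Pool.Agent.PlunTwo

/-- The set `A` contains at least `c * (2 * l)` of the points `[0, l) × {0, 1}`, for
`l ≤ N + 1`. -/
def OnBoth (N : ℕ) (A : Set (ℕ × ℕ)) (c : ℝ) : Prop :=
  ∀ l ≤ N + 1, c * (2 * (l : ℝ)) ≤ (row 0 A l : ℝ) + row 1 A l

/-- The set `A` contains at least `c * (x + y)` points of every staircase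
`[0, x) × {0} ∪ [0, y) × {1}` with `y ≤ x` and `x + y ≤ N + 1`. -/
def OnSmallStairs (N : ℕ) (A : Set (ℕ × ℕ)) (c : ℝ) : Prop :=
  ∀ x y : ℕ, y ≤ x → x + y ≤ N + 1 → c * ((x : ℝ) + y) ≤ (row 0 A x : ℝ) + row 1 A y

end Pool.Agent.H65R
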