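import Pool.Agent.H5St.Profile

/-!
# Feasibility of the three-valued density when `k B` is dense on boxes only

In the middle range (the first point of the row `1` of the tail lies between the first point `x` of
the row `0` and the middle of `[x, 1]`) fewer points are reached than for staircases; the loss is
`(1 - θ) * dl * (1 - x)`.
-/

set_option autoImplicit false

namespace Pool.Agent.H5St

section

variable {θ s f x c m1 m2 : ℝ}

/-- The middle range with the loss `dl`. -/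
theorem case_wide (hθ : 1 / 2 ≤ θ) (hθ1 : θ ≤ 1) (hs : 0 ≤ s) (hs1 : s ≤ 1)
    (h1 : s * m1 = f) (h2 : (1 - s) * m2 = 2 * f) (h12 : m1 ≤ 1 + s - m2)
    {dl β : ℝ} (hdl : 0 ≤ dl) (hdls : dl ≤ s) (hfd : f ≤ s - dl)
    (hf : 0 ≤ f) (hx0 : 0 ≤ x) (hx1 : x ≤ 1) (hc : x ≤ c)
    (hc2 : 2 * x - (1 - s) ≤ c) (hv : (1 + s) * x - c ≤ f)
    (hβ : β ≤ 2 * (1 - x) - (1 + s - c)) :
    tl θ s m1 m2 c + (1 + s) / 2 * β ≤ (1 + 2 * s + θ - (1 - θ) * dl) * (1 - x) := by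
  have hβ' : (1 + s) / 2 * β ≤ (1 + s) / 2 * (2 * (1 - x) - (1 + s - c)) :=
    mul_le_mul_of_nonneg_left hβ (by linarith)
  have key : tl θ s m1 m2 c ≤
      (s + θ - (1 - θ) * dl) * (1 - x) + (1 + s) / 2 * (1 + s - c) := by
    refine tl_le h1 h2 h12 ?_ ?_ ?_
    · have e1 : (1 - θ) * (f - s + dl) ≤ 0 :=
        mul_nonpos_of_nonneg_of_nonpos (by linarith) (by linarith)
      have e2 : (θ + (2 - θ) * s) * x ≤ (θ + (2 - θ) * s) * c := by
        refine mul_le_mul_of_nonneg_left hc ?_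
        have : 0 ≤ (2 - θ) * s := mul_nonneg (by linarith) hs
        linarith
      have e3 : 0 ≤ (1 - θ) * (s + dl) * x :=
        mul_nonneg (mul_nonneg (by linarith) (by linarith)) hx0
      nlinarith
    · have e1 : 1 + s - c ≤ (1 + s) * (1 - x) + f := by linarith
      have e2 : θ * (1 + s - c) ≤ θ * ((1 + s) * (1 - x) + f) :=
        mul_le_mul_of_nonneg_left e1 (by linarith)
      have e3 : 0 ≤ (1 - θ) * ((s - dl) * (1 - x)) :=
        mul_nonneg (by linarith) (mul_nonneg (by linarith) (by linarith))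
      have e4 : 0 ≤ (1 - θ) * f := mul_nonneg (by linarith) hf
      nlinarith
    · have e1 : (θ - (1 - s) / 2) * (1 + s - c) ≤ (θ - (1 - s) / 2) * (2 * (1 - x)) :=
        mul_le_mul_of_nonneg_left (by linarith) (by linarith)
      have e2 : 0 ≤ (1 - θ) * (1 - dl) * (1 - x) :=
        mul_nonneg (mul_nonneg (by linarith) (by linarith)) (by linarith)
      nlinarith
  nlinarith

end

variable {L l' : ℕ} {s f : ℝ} {C0 C1 : ℕ → ℝ}

/-- **Feasibility** with the loss `dl` in the middle range. -/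
theorem Prof.feas2 (H : Prof L s f C0 C1 l') {θ P dl : ℝ} (hθ : 1 / 2 ≤ θ) (hθ1 : θ ≤ 1)
    (hdl : 0 ≤ dl) (hdls : dl ≤ s) (hfd : f ≤ s - dl) {z0 z1 : ℕ}
    (hz0 : z0 ≤ L) (hz1 : z1 ≤ L)
    (hP1 : z1 ≤ z0 → (θ + s) * (1 - (z0 : ℝ) / L) + (1 + s) * (1 - (z1 : ℝ) / L) ≤ P)
    (hP2 : z0 ≤ z1 → z1 - z0 ≤ L - z1 →
      (1 + 2 * s + θ - (1 - θ) * dl) * (1 - (z0 : ℝ) / L) ≤ P)
    (hP3 : z0 ≤ z1 → L - z1 ≤ z1 - z0 →
      2 * (θ + s) * (1 - (z0 : ℝ) / L) + 2 * (1 - θ) * (1 - (z1 : ℝ) / L) ≤ P) :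
    tl θ s (f / s) (2 * f / (1 - s)) (C0 z0) + (1 + s) / 2 * (1 - s - C1 z1) ≤ P := by
  have hcase : (z0 ≤ z1 ∧ z1 - z0 ≤ L - z1) ∨ ¬ (z0 ≤ z1 ∧ z1 - z0 ≤ L - z1) := em _
  rcases hcase with ⟨h, h'⟩ | hn
  · refine le_trans ?_ (hP2 h h')
    obtain ⟨x, hx⟩ : ∃ x, x = (z0 : ℝ) / L := ⟨_, rfl⟩
    obtain ⟨x', hx'⟩ : ∃ x', x' = (l' : ℝ) / L := ⟨_, rfl⟩
    have px := pos_div H.hL hz0
    have l0 := H.low0 z0 hz0
    have l1 := H.low z0 hz0
    have v0 := H.hv z0 hz0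
    have u0 := H.up1 z0
    have hs := H.hs
    have hs1 := H.hs1
    have h1 : C1 z0 ≤ C1 z1 := H.mono1 h
    rw [← hx] at px l0 l1 v0 ⊢
    exact case_wide hθ hθ1 hs hs1 H.m1_eq H.m2_eq H.m_le hdl hdls hfd H.hf0 px.1 px.2 l0
      (by linarith) v0 (by linarith)
  · exact H.feas hθ hθ1 hz0 hz1 hP1 (fun h h' => absurd ⟨h, h'⟩ hn) hP3

end Pool.Agent.H5St
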