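import Pool.Agent.H5St.Half
import Pool.Agent.H65R.Hall2

/-!
# The exact inequality when the row `0` of `A` or of `k B` is denser, `k ≤ 2 k'`
-/

set_option autoImplicit false

open Finset Classical

namespace Pool.Agent.H5St

open Pool.Agent.PlunTwo Pool.Agent.PlunRow

/-- The inequality follows from the weighted Hall condition for the three-valued density. -/
theorem half_gen {q j k : ℕ} (hj : 0 < j) (hk : j < k) (hk2 : k ≤ 2 * j) (A B : Set (ℕ × ℕ))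
    {α δ : ℝ} (hα : 0 < α) (hδ : 0 < δ)
    (hA0 : ∀ l ≤ q + 1, α * (l : ℝ) ≤ row 0 A l)
    (hA : ∀ l ≤ q + 1, 2 * α * (l : ℝ) ≤ (row 0 A l : ℝ) + row 1 A l)
    (hG : ∀ (s f : ℝ) (l' : ℕ), 0 ≤ s → s ≤ 1 →
      (∃ l ≤ q + 1, α * (q + 1 : ℕ) * (1 - s) = 2 * α * (l : ℝ) - row 0 A l) →
      α * (q + 1 : ℕ) * (1 + s) ≤ row 0 A (q + 1) → α * (q + 1 : ℕ) * (1 - s) ≤ row 1 A (q + 1) →
      Prof (q + 1) s f (nm A (α * (q + 1 : ℕ)) (α * (q + 1 : ℕ) * (1 + s)) 0)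
        (nm A (α * (q + 1 : ℕ)) (α * (q + 1 : ℕ) * (1 - s)) 1) l' →
      ∀ Z ⊆ src q A, ∑ a ∈ Z, dd A (δ / (α * (1 + s)) * ((2 - (j : ℝ) / k) * s))
        (δ / (α * (1 + s)) * ((1 - s) / 2)) (δ / (α * (1 + s)) * (s + (j : ℝ) / k)) (δ / (2 * α))
        (α * (q + 1 : ℕ) * (f / s)) (α * (q + 1 : ℕ) * (1 + s - 2 * f / (1 - s)))
        (α * (q + 1 : ℕ) * (1 + s)) (α * (q + 1 : ℕ) * (1 - s)) a ≤
        ((j : ℝ) / k + s) / (1 + s) * (im q k B 0 Z).card + 1 * (im q k B 1 Z).card) :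
    2 * (α ^ (1 - (j : ℝ) / k) * δ ^ ((j : ℝ) / k)) * ((q + 1 : ℕ) : ℝ) ≤
      (row 0 (msum A (kfold B j)) (q + 1) : ℝ) + row 1 (msum A (kfold B j)) (q + 1) := by
  obtain ⟨hθ0, hθ1⟩ := theta_pos hj hk
  have hθ2 : 1 / 2 ≤ (j : ℝ) / k := by
    have hk0 : (0 : ℝ) < k := by exact_mod_cast hj.trans hk
    rw [le_div_iff₀ hk0]
    have : (k : ℝ) ≤ 2 * j := by exact_mod_cast hk2
    linarith
  -- the cut
  obtain ⟨l0, hl0, hmax⟩ := exists_max_image (range (q + 1 + 1))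
    (fun l => 2 * α * (l : ℝ) - row 0 A l) ⟨0, mem_range.2 (by omega)⟩
  rw [mem_range] at hl0
  set b : ℝ := 2 * α * (l0 : ℝ) - row 0 A l0 with hbdef
  have hb : ∀ l ≤ q + 1, 2 * α * (l : ℝ) - row 0 A l ≤ b := fun l hl =>
    hmax l (mem_range.2 (by omega))
  have hb' : ∃ l ≤ q + 1, b = 2 * α * (l : ℝ) - row 0 A l := ⟨l0, by omega, hbdef⟩
  have hb0 : 0 ≤ b := by
    have := hb 0 (by omega)
    simpa [row] using this
  have hL : (0 : ℝ) < ((q + 1 : ℕ) : ℝ) := by positivity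
  have hbL : b ≤ α * ((q + 1 : ℕ) : ℝ) := by
    have h1 := hA0 l0 (by omega)
    have h2 : (l0 : ℝ) ≤ ((q + 1 : ℕ) : ℝ) := by
      have : l0 ≤ q + 1 := by omega
      exact_mod_cast this
    have := mul_le_mul_of_nonneg_left h2 hα.le
    rw [hbdef]
    linarith
  obtain ⟨htot0, htot1⟩ := cut_total A hA hb hb'
  have ht0 : 0 < α * ((q + 1 : ℕ) : ℝ) := by positivity
  obtain ⟨s, hs⟩ : ∃ s, s = 1 - b / (α * ((q + 1 : ℕ) : ℝ)) := ⟨_, rfl⟩
  have hs0 : 0 ≤ s := by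
    rw [hs, sub_nonneg, div_le_one ht0]
    exact hbL
  have hs1 : s ≤ 1 := by
    rw [hs]
    have : 0 ≤ b / (α * ((q + 1 : ℕ) : ℝ)) := div_nonneg hb0 ht0.le
    linarith
  have hbs : α * ((q + 1 : ℕ) : ℝ) * (1 - s) = b := by
    rw [hs]
    field_simp
    ring
  have hbs' : α * ((q + 1 : ℕ) : ℝ) * (1 + s) = 2 * α * ((q + 1 : ℕ) : ℝ) - b := by
    rw [← hbs]
    ring
  have hr0 : α * ((q + 1 : ℕ) : ℝ) * (1 + s) ≤ row 0 A (q + 1) := by
    rw [hbs', ← htot0]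
    exact min_le_left _ _
  have hr1 : α * ((q + 1 : ℕ) : ℝ) * (1 - s) ≤ row 1 A (q + 1) := by
    rw [hbs, ← htot1]
    exact min_le_left _ _
  obtain ⟨f, l', H⟩ := exists_prof A hα hs0 hs1 hA0 hA (by rw [hbs]; exact hb)
    (by rw [hbs]; exact hb')
  have hHall := hG s f l' hs0 hs1 (by rw [hbs]; exact hb') hr0 hr1 H
  -- abbreviations
  set θ : ℝ := (j : ℝ) / k with hθ
  obtain ⟨t, ht⟩ : ∃ t, t = α * ((q + 1 : ℕ) : ℝ) := ⟨_, rfl⟩
  rw [← ht] at ht0 hr0 hr1 hHall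
  obtain ⟨Q, hQ⟩ : ∃ Q, Q = θ + (1 + s) / 2 := ⟨_, rfl⟩
  have hQ0 : 0 < Q := by rw [hQ]; linarith
  have hs2 : 0 < 1 + s := by linarith
  have hm12 := H.m_le
  have hm1 := H.m1_nonneg
  have hm2 := H.m2_nonneg
  have hm3 : 1 + s - 2 * f / (1 - s) ≤ 1 + s := by linarith
  have hm5 : 0 ≤ 1 + s - 2 * f / (1 - s) := hm1.trans hm12
  have hu : 0 < δ / (α * (1 + s)) := by positivity
  have he1 : 0 ≤ δ / (α * (1 + s)) * ((2 - θ) * s) :=
    mul_nonneg hu.le (mul_nonneg (by linarith) hs0)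
  have he2 : 0 ≤ δ / (α * (1 + s)) * ((1 - s) / 2) := mul_nonneg hu.le (by linarith)
  have he3 : 0 ≤ δ / (α * (1 + s)) * (s + θ) := mul_nonneg hu.le (by linarith)
  have he4 : 0 ≤ δ / (2 * α) := by positivity
  have hv0 : 0 < Q / (1 + s) := div_pos hQ0 hs2
  have key := Pool.Agent.H65U.main_U hj hk A B (u0 := (θ + s) / (1 + s)) (u1 := 1)
    (v0 := Q / (1 + s)) (v1 := 1 / 2) (fun a _ => dd_nonneg he1 he2 he3 he4 a)
    (div_nonneg (by linarith) hs2.le) zero_le_one hv0.le (by norm_num) hHall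
  obtain ⟨hF0, hF1⟩ := Pool.Agent.H10Star.sum_dd_rpow (q := q) A he1 he2 he3 he4
    (c1 := t * (f / s)) (c2 := t * (1 + s - 2 * f / (1 - s))) (c3 := t * (1 + s))
    (b := t * (1 - s)) (mul_nonneg ht0.le hm1) (mul_le_mul_of_nonneg_left hm12 ht0.le)
    (mul_le_mul_of_nonneg_left hm3 ht0.le) hr0 (mul_nonneg ht0.le (by linarith)) hr1 hθ0.le hθ1.le
  obtain ⟨d, hd⟩ : ∃ d, d = dd A (δ / (α * (1 + s)) * ((2 - θ) * s))
    (δ / (α * (1 + s)) * ((1 - s) / 2)) (δ / (α * (1 + s)) * (s + θ)) (δ / (2 * α))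
    (t * (f / s)) (t * (1 + s - 2 * f / (1 - s))) (t * (1 + s)) (t * (1 - s)) := ⟨_, rfl⟩
  rw [← hθ, ← hd] at key
  rw [← hd] at hF0 hF1
  set R0 : ℝ := (row 0 (msum A (kfold B j)) (q + 1) : ℝ) with hR0
  set R1 : ℝ := (row 1 (msum A (kfold B j)) (q + 1) : ℝ) with hR1
  have hR0n : 0 ≤ R0 := Nat.cast_nonneg _
  have hR1n : 0 ≤ R1 := Nat.cast_nonneg _
  -- the right side
  have amgm := Real.geom_mean_le_arith_mean2_weighted hθ0.le (sub_nonneg.2 hθ1.le)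
    (show 0 ≤ (θ + s) / (1 + s) * R0 + 1 * R1 from
      add_nonneg (mul_nonneg (div_nonneg (by linarith) hs2.le) hR0n) (by linarith))
    (show 0 ≤ Q / (1 + s) * R0 + 1 / 2 * R1 by positivity) (by ring)
  have hright : θ * ((θ + s) / (1 + s) * R0 + 1 * R1) +
      (1 - θ) * (Q / (1 + s) * R0 + 1 / 2 * R1) = (1 + θ) / 2 * (R0 + R1) := by
    rw [hQ]
    field_simp
    ring
  rw [hright] at amgm
  -- the left side
  obtain ⟨p1, hp1⟩ : ∃ p1, p1 = (1 + (2 - θ) * s / Q) ^ θ := ⟨_, rfl⟩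
  obtain ⟨p3, hp3⟩ : ∃ p3, p3 = ((s + θ) / Q) ^ θ := ⟨_, rfl⟩
  have hstar : 1 + s ≤ 2 * s * p3 + (1 - s) * p1 := by
    rw [hp1, hp3, hQ]
    exact Pool.Agent.H10Star.star hθ2 hθ1.le hs0 hs1
  have hparts := parts H hstar
  have hratio : 0 < δ / α := div_pos hδ hα
  have y1 : 0 ≤ 1 + (2 - θ) * s / Q := by
    have : 0 ≤ (2 - θ) * s / Q := div_nonneg (mul_nonneg (by linarith) hs0) hQ0.le
    linarith
  have y3 : 0 ≤ (s + θ) / Q := div_nonneg (by linarith) hQ0.le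
  have E1 : δ / (α * (1 + s)) * ((2 - θ) * s) + δ / (α * (1 + s)) * ((1 - s) / 2) +
      δ / (α * (1 + s)) * (s + θ) = δ / α * (Q / (1 + s) * (1 + (2 - θ) * s / Q)) := by
    have : Q / (1 + s) * (1 + (2 - θ) * s / Q) = (Q + (2 - θ) * s) / (1 + s) := by
      field_simp
    rw [this, hQ]
    field_simp
    ring
  have E2 : δ / (α * (1 + s)) * ((1 - s) / 2) + δ / (α * (1 + s)) * (s + θ) =
      δ / α * (Q / (1 + s) * 1) := by
    rw [hQ]
    field_simp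
    ring
  have E3 : δ / (α * (1 + s)) * (s + θ) = δ / α * (Q / (1 + s) * ((s + θ) / Q)) := by
    have : Q / (1 + s) * ((s + θ) / Q) = (s + θ) / (1 + s) := by
      field_simp
    rw [this]
    field_simp
  have E4 : δ / (2 * α) = δ / α * (1 / 2 * 1) := by
    field_simp
  rw [E1, E2, E3] at hF0
  rw [E4] at hF1
  have M1 := rpow_mix (a := δ / α) (x := Q / (1 + s)) (y := 1 + (2 - θ) * s / Q) (θ := θ)
    hratio.le hv0 y1
  have M2 := rpow_mix (a := δ / α) (x := Q / (1 + s)) (y := 1) (θ := θ) hratio.le hv0 zero_le_one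
  have M3 := rpow_mix (a := δ / α) (x := Q / (1 + s)) (y := (s + θ) / Q) (θ := θ)
    hratio.le hv0 y3
  have M4 := rpow_mix (a := δ / α) (x := 1 / 2) (y := 1) (θ := θ) hratio.le (by norm_num)
    zero_le_one
  rw [← hp1] at M1
  rw [← hp3] at M3
  rw [Real.one_rpow] at M2 M4
  have G0 := mul_le_mul_of_nonneg_left hF0 (Real.rpow_nonneg hv0.le (1 - θ))
  have G1 := mul_le_mul_of_nonneg_left hF1
    (Real.rpow_nonneg (show (0 : ℝ) ≤ 1 / 2 by norm_num) (1 - θ))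
  have hleft : (δ / α) ^ θ * t * (1 + θ) ≤ (1 + θ) / 2 * (R0 + R1) := by
    refine le_trans ?_ ((add_le_add G0 G1).trans (key.trans amgm))
    have r0 : 0 < (δ / α) ^ θ := Real.rpow_pos_of_pos hratio _
    have e : (Q / (1 + s)) ^ (1 - θ) *
          ((δ / α * (Q / (1 + s) * (1 + (2 - θ) * s / Q))) ^ θ * (t * (f / s)) +
            (δ / α * (Q / (1 + s) * 1)) ^ θ * (t * (1 + s - 2 * f / (1 - s)) - t * (f / s)) +
            (δ / α * (Q / (1 + s) * ((s + θ) / Q))) ^ θ *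
              (t * (1 + s) - t * (1 + s - 2 * f / (1 - s)))) +
          (1 / 2 : ℝ) ^ (1 - θ) * ((δ / α * (1 / 2 * 1)) ^ θ * (t * (1 - s))) =
        (δ / α) ^ θ * t * (Q / (1 + s) * (p1 * (f / s) +
          (1 + s - 2 * f / (1 - s) - f / s) +
          p3 * (1 + s - (1 + s - 2 * f / (1 - s)))) + 1 / 2 * (1 - s)) := by
      linear_combination (t * (f / s)) * M1 +
        (t * (1 + s - 2 * f / (1 - s)) - t * (f / s)) * M2 +
        (t * (1 + s) - t * (1 + s - 2 * f / (1 - s))) * M3 + (t * (1 - s)) * M4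
    rw [e]
    refine mul_le_mul_of_nonneg_left ?_ (mul_nonneg r0.le ht0.le)
    have h1 := mul_le_mul_of_nonneg_left hparts hv0.le
    have h2 : Q / (1 + s) * (1 + s) = Q := by field_simp
    rw [h2] at h1
    have h3 : Q + 1 / 2 * (1 - s) = 1 + θ := by
      rw [hQ]
      ring
    linarith
  have h1θ : 0 < 1 + θ := by linarith
  have hfin : (δ / α) ^ θ * t * 2 ≤ R0 + R1 := by
    have h : (1 + θ) / 2 * ((δ / α) ^ θ * t * 2) ≤ (1 + θ) / 2 * (R0 + R1) := by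
      refine le_trans (le_of_eq ?_) hleft
      ring
    exact le_of_mul_le_mul_left h (by linarith)
  refine le_trans (le_of_eq ?_) hfin
  have e1 : α ^ (1 - θ) * δ ^ θ = (δ / α) ^ θ * α := by
    rw [Real.div_rpow hδ.le hα.le, Real.rpow_sub hα, Real.rpow_one]
    field_simp
  rw [e1, ht]
  ring

/-- **The exact inequality** when `k B` is dense on boxes: `a` and `c` are the quotients of the
densities of the rows `0` of `A` and `k B` and of the densities of the sets, `h` is the same quotient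
for the staircases of `k B` with at most `q + 1` points. -/
theorem first_bound {q j k : ℕ} (hj : 0 < j) (hk : j < k) (hk2 : k ≤ 2 * j) (A B : Set (ℕ × ℕ))
    {α δ a c h : ℝ} (hα : 0 < α) (hδ : 0 < δ) (ha : 1 ≤ a) (hc : 1 ≤ c) (hh0 : 0 ≤ h)
    (hA0 : ∀ l ≤ q + 1, a * α * (l : ℝ) ≤ row 0 A l)
    (hA : ∀ l ≤ q + 1, 2 * α * (l : ℝ) ≤ (row 0 A l : ℝ) + row 1 A l)
    (hK : Boxy q (kfold B k) δ c h)
    (hac : 2 ≤ a + h ∨ (1 - (j : ℝ) / k) * c ≤ a * (c + h - 1 - (j : ℝ) / k)) :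
    2 * (α ^ (1 - (j : ℝ) / k) * δ ^ ((j : ℝ) / k)) * ((q + 1 : ℕ) : ℝ) ≤
      (row 0 (msum A (kfold B j)) (q + 1) : ℝ) + row 1 (msum A (kfold B j)) (q + 1) := by
  obtain ⟨hθ0, hθ1⟩ := theta_pos hj hk
  have hθ2 : 1 / 2 ≤ (j : ℝ) / k := by
    have hk0 : (0 : ℝ) < k := by exact_mod_cast hj.trans hk
    rw [le_div_iff₀ hk0]
    have : (k : ℝ) ≤ 2 * j := by exact_mod_cast hk2
    linarith
  have hA0' : ∀ l ≤ q + 1, α * (l : ℝ) ≤ row 0 A l := by
    intro l hl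
    refine le_trans ?_ (hA0 l hl)
    have := mul_le_mul_of_nonneg_right ha (mul_nonneg hα.le (Nat.cast_nonneg l (α := ℝ)))
    linarith
  have hL : (0 : ℝ) < ((q + 1 : ℕ) : ℝ) := by positivity
  have ht0 : 0 < α * ((q + 1 : ℕ) : ℝ) := by positivity
  have hlL : ∀ l ≤ q + 1, α * (l : ℝ) ≤ α * ((q + 1 : ℕ) : ℝ) := by
    intro l hl
    have : (l : ℝ) ≤ ((q + 1 : ℕ) : ℝ) := by exact_mod_cast hl
    exact mul_le_mul_of_nonneg_left this hα.le
  refine half_gen hj hk hk2 A B hα hδ hA0' hA ?_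
  intro s f l' hs0 hs1 hcut hr0 hr1 H
  obtain ⟨l, hl, hcut⟩ := hcut
  have hfs := H.f_le
  have hx' := pos_div H.hL H.hl'
  have hfs0 : f ≤ s - 0 := by
    have := mul_le_mul_of_nonneg_left hx'.2 hs0
    linarith
  have hθ' : 0 ≤ 1 - (j : ℝ) / k := sub_nonneg.2 hθ1.le
  -- the consequences of the density of the row `0` of `A`
  have hdl : ∀ dl : ℝ, 0 ≤ dl → dl ≤ 1 → 1 + dl ≤ a → dl ≤ s ∧ f ≤ s - dl := by
    intro dl hdl0 hdl1 hda
    have hA0'' : ∀ l ≤ q + 1, (1 + dl) * (α * (l : ℝ)) ≤ row 0 A l := by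
      intro l hl
      refine le_trans ?_ (hA0 l hl)
      have := mul_le_mul_of_nonneg_right hda (mul_nonneg hα.le (Nat.cast_nonneg l (α := ℝ)))
      linarith
    have hdls : dl ≤ s := by
      have h2 := hA0'' l hl
      have h3 := mul_le_mul_of_nonneg_left (hlL l hl) (show 0 ≤ 1 - dl by linarith)
      have h4 : α * ((q + 1 : ℕ) : ℝ) * (1 - s) ≤ α * ((q + 1 : ℕ) : ℝ) * (1 - dl) := by
        linarith
      have h5 := le_of_mul_le_mul_left h4 ht0
      linarith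
    refine ⟨hdls, ?_⟩
    have h2 : (1 + dl) * ((l' : ℝ) / ((q + 1 : ℕ) : ℝ)) ≤
        nm A (α * (q + 1 : ℕ)) (α * (q + 1 : ℕ) * (1 + s)) 0 l' := by
      have e : (l' : ℝ) / ((q + 1 : ℕ) : ℝ) = α * l' / (α * ((q + 1 : ℕ) : ℝ)) := by
        field_simp
      rw [e, nm, ← mul_div_assoc, div_le_div_iff_of_pos_right ht0, le_min_iff]
      refine ⟨hA0'' l' H.hl', ?_⟩
      have h3 := mul_le_mul (show 1 + dl ≤ 1 + s by linarith) (hlL l' H.hl')
        (mul_nonneg hα.le (Nat.cast_nonneg l' (α := ℝ))) (by linarith)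
      linarith
    have h3 := H.hf
    have h4 : (s - dl) * ((l' : ℝ) / ((q + 1 : ℕ) : ℝ)) ≤ (s - dl) * 1 :=
      mul_le_mul_of_nonneg_left hx'.2 (by linarith)
    linarith
  rcases le_or_gt 2 (a + h) with h1 | h1
  · rcases le_or_gt h 1 with hh | hh
    · -- the loss `1 - h`
      obtain ⟨d1, d2⟩ := hdl (1 - h) (by linarith) (by linarith) (by linarith)
      exact two_hall2 (dl := 1 - h) (c := c) (h := h) A B hα hδ hθ2 hθ1.le hr0 hr1 (by linarith)
        d1 d2 hc hK (Or.inl (le_of_eq (by ring))) H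
    · refine two_hall2 (dl := 0) (c := c) (h := h) A B hα hδ hθ2 hθ1.le hr0 hr1 le_rfl hs0 hfs0 hc
        hK (Or.inl ?_) H
      have := mul_le_mul_of_nonneg_left hh.le hθ'
      linarith
  · -- the row `0` of `k B` is denser
    have h2 := hac.resolve_left (not_le.2 h1)
    have hch : 2 ≤ c + h := by
      by_contra hcon
      rw [not_le] at hcon
      obtain ⟨e, he⟩ : ∃ e, e = 2 - c - h := ⟨_, rfl⟩
      have he0 : 0 < e := by linarith
      have e1 : c + h - 1 - (j : ℝ) / k = (1 - (j : ℝ) / k) - e := by rw [he]; ring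
      rw [e1] at h2
      have hpos : 0 < (1 - (j : ℝ) / k) * c := mul_pos (by linarith) (by linarith)
      have h3 : 0 < (1 - (j : ℝ) / k) - e := by
        by_contra h4
        rw [not_lt] at h4
        have := mul_nonpos_of_nonneg_of_nonpos (show 0 ≤ a by linarith) h4
        linarith
      have h5 := mul_le_mul_of_nonneg_right (show a ≤ c + e by linarith) h3.le
      have h6 : 0 < e * (c - 1 + (j : ℝ) / k) := mul_pos he0 (by linarith)
      have h7 : 0 < e * e := mul_pos he0 he0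
      nlinarith
    obtain ⟨d1, d2⟩ := hdl (a - 1) (by linarith) (by linarith) (by linarith)
    refine two_hall2 (dl := a - 1) (c := c) (h := h) A B hα hδ hθ2 hθ1.le hr0 hr1 (by linarith)
      d1 d2 hc hK (Or.inr ?_) H
    have e2 := mul_le_mul_of_nonneg_right d1 (show 0 ≤ c + h - 2 by linarith)
    linarith

end Pool.Agent.H5St
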