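import Pool.Agent.PlunTwo.Final
import Pool.Agent.H65R.Half2
import Pool.Agent.H65R.Defs

/-!
# The density form, `k ≤ 2 k'`
-/

set_option autoImplicit false

open Finset Classical

namespace Pool.Agent.H65R

open Pool.Agent.PlunTwo Pool.Agent.H5St

theorem density_general {N j k : ℕ} (hj : 0 < j) (hk : j < k) (hk2 : k ≤ 2 * j)
    (A B : Set (ℕ × ℕ)) {α κ a c h : ℝ} (hα : 0 ≤ α) (hκ : 0 ≤ κ) (ha : 1 ≤ a) (hc : 1 ≤ c)
    (hh : 0 ≤ h) (hA0 : OnFirst N A (a * α)) (hA : OnBoth N A α)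
    (hK0 : OnFirst N (kfold B k) (c * κ)) (hK : OnBoth N (kfold B k) κ)
    (hS : OnSmallStairs N (kfold B k) (h * κ))
    (hac : 2 ≤ a + h ∨ (1 - (j : ℝ) / k) * c ≤ a * (c + h - 1 - (j : ℝ) / k)) :
    α ^ (1 - (j : ℝ) / k) * κ ^ ((j : ℝ) / k) ≤ sigma N (msum A (kfold B j)) := by
  obtain ⟨hθ0, hθ1⟩ := theta_pos hj hk
  rcases hα.eq_or_lt with h0 | hα
  · rw [← h0, Real.zero_rpow (by linarith), zero_mul]
    exact sigma_nonneg _ _
  rcases hκ.eq_or_lt with h0 | hκ
  · rw [← h0, Real.zero_rpow hθ0.ne', mul_zero]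
    exact sigma_nonneg _ _
  refine le_sigma N _ _ (fun n hn => ?_) fun n hn => ?_
  · refine one_row hj hk hn A B hα hκ (fun l hl => ?_) fun l hl => ?_
    · refine le_trans ?_ (hA0 l hl)
      have := mul_le_mul_of_nonneg_right ha (mul_nonneg hα.le (Nat.cast_nonneg l (α := ℝ)))
      linarith
    · refine le_trans ?_ (hK0 l hl)
      have := mul_le_mul_of_nonneg_right hc (mul_nonneg hκ.le (Nat.cast_nonneg l (α := ℝ)))
      linarith
  · have h := first_bound (q := n) hj hk hk2 A B hα hκ ha hc hh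
      (fun l hl => hA0 l (by omega))
      (fun l hl => by
        have := hA l (by omega)
        linarith)
      { zero := fun l hl => hK0 l (by omega)
        both := fun l hl => hK l (by omega)
        stair := fun x y hy hxy => hS x y hy (by omega) } hac
    push_cast at h
    linarith

/-- The case of the densities themselves. -/
theorem density_sigma {N j k : ℕ} (hj : 0 < j) (hk : j < k) (hk2 : k ≤ 2 * j)
    (A B : Set (ℕ × ℕ)) {a c : ℝ} (ha : 1 ≤ a) (hc : 1 ≤ c)
    (hA0 : OnFirst N A (a * sigma N A))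
    (hK0 : OnFirst N (kfold B k) (c * sigma N (kfold B k)))
    (hac : 4 ≤ a * (2 + c) ∨
      (1 - (j : ℝ) / k) * c ≤ a * (c + 2 * c / (2 + c) - 1 - (j : ℝ) / k)) :
    sigma N A ^ (1 - (j : ℝ) / k) * sigma N (kfold B k) ^ ((j : ℝ) / k) ≤
      sigma N (msum A (kfold B j)) := by
  have hc2 : 0 < 2 + c := by linarith
  have hboth : ∀ X : Set (ℕ × ℕ), OnBoth N X (sigma N X) := fun X l hl => rows_ge N X hl
  refine density_general hj hk hk2 A B (sigma_nonneg _ _) (sigma_nonneg _ _) ha hc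
    (h := 2 * c / (2 + c)) (div_nonneg (by linarith) hc2.le) hA0 (hboth A) hK0 (hboth _) ?_ ?_
  · exact fun x y hy hxy => stair_always (by linarith) hK0 (hboth _) x y hy hxy
  · rcases hac with h | h
    · refine Or.inl ?_
      have e : a + 2 * c / (2 + c) - 2 = (a * (2 + c) - 4) / (2 + c) := by
        field_simp
        ring
      have : 0 ≤ (a * (2 + c) - 4) / (2 + c) := div_nonneg (by linarith) hc2.le
      linarith
    · exact Or.inr h

/-- Four simple conditions. -/
theorem density_simple {N j k : ℕ} (hj : 0 < j) (hk : j < k) (hk2 : k ≤ 2 * j)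
    (A B : Set (ℕ × ℕ))
    (h : OnFirst N A (4 / 3 * sigma N A) ∨
      OnFirst N (kfold B k) (11 / 8 * sigma N (kfold B k)) ∨
      (OnFirst N A (5 / 4 * sigma N A) ∧
        OnFirst N (kfold B k) (5 / 4 * sigma N (kfold B k))) ∨
      OnSmallStairs N (kfold B k) (sigma N (kfold B k))) :
    sigma N A ^ (1 - (j : ℝ) / k) * sigma N (kfold B k) ^ ((j : ℝ) / k) ≤
      sigma N (msum A (kfold B j)) := by
  obtain ⟨hθ0, hθ1⟩ := theta_pos hj hk
  have hθ2 : 1 / 2 ≤ (j : ℝ) / k := by
    have hk0 : (0 : ℝ) < k := by exact_mod_cast hj.trans hk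
    rw [le_div_iff₀ hk0]
    have : (k : ℝ) ≤ 2 * j := by exact_mod_cast hk2
    linarith
  have hfirst : ∀ X : Set (ℕ × ℕ), OnFirst N X (1 * sigma N X) := onFirst_always N
  rcases h with h | h | ⟨h, h'⟩ | h
  · exact density_sigma hj hk hk2 A B (a := 4 / 3) (c := 1) (by norm_num) le_rfl h (hfirst _)
      (Or.inl (by norm_num))
  · refine density_sigma hj hk hk2 A B (a := 1) (c := 11 / 8) le_rfl (by norm_num) (hfirst _) h
      (Or.inr ?_)
    norm_num
    linarith
  · exact density_sigma hj hk hk2 A B (a := 5 / 4) (c := 5 / 4) (by norm_num) (by norm_num) h h'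
      (Or.inl (by norm_num))
  · exact density_general hj hk hk2 A B (a := 1) (c := 1) (h := 1) (sigma_nonneg _ _)
      (sigma_nonneg _ _) le_rfl le_rfl zero_le_one (hfirst _) (fun l hl => rows_ge N A hl)
      (hfirst _) (fun l hl => rows_ge N _ hl) (by rwa [one_mul]) (Or.inl (by norm_num))

end Pool.Agent.H65R
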